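import Mathlib

namespace Pool.Agent.X171.IE

open Set

variable {X : Type} [NormedAddCommGroup X] [NormedSpace ℝ X]

/-- The weak-star closure of a set of functionals. -/
def wcl (S : Set (StrongDual ℝ X)) : Set (StrongDual ℝ X) :=
  {φ | StrongDual.toWeakDual φ ∈ closure (StrongDual.toWeakDual '' S)}

/-- The (I)-envelope of a set `A` of functionals: the intersection, over all countable covers
`A = ⋃ n, B n`, of the norm-closed convex hulls of the union of the weak-star closed convex hulls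
of the sets `B n`. -/
def Ienv (A : Set (StrongDual ℝ X)) : Set (StrongDual ℝ X) :=
  {φ | ∀ B : ℕ → Set (StrongDual ℝ X), A = ⋃ n, B n →
    φ ∈ closure (convexHull ℝ (⋃ n, wcl (convexHull ℝ (B n))))}

/-- The bounded-part (I)-envelope. -/
def Ienvb (A : Set (StrongDual ℝ X)) : Set (StrongDual ℝ X) :=
  ⋃ n : ℕ, Ienv (A ∩ Metric.closedBall 0 n)

lemma subset_wcl (S : Set (StrongDual ℝ X)) : S ⊆ wcl S := by
  intro φ h
  have h1 : StrongDual.toWeakDual φ ∈ (StrongDual.toWeakDual '' S : Set (WeakDual ℝ X)) :=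
    mem_image_of_mem _ h
  have h2 : StrongDual.toWeakDual φ ∈ closure (StrongDual.toWeakDual '' S : Set (WeakDual ℝ X)) :=
    subset_closure h1
  exact h2

/-- A set which is closed for the weak-star topology and contains `S` contains `wcl S`. -/
lemma wcl_subset {S : Set (StrongDual ℝ X)} {C : Set (WeakDual ℝ X)} (hC : IsClosed C)
    (h : ∀ φ ∈ S, StrongDual.toWeakDual φ ∈ C) : ∀ φ ∈ wcl S, StrongDual.toWeakDual φ ∈ C := by
  intro φ hφ
  refine closure_minimal ?_ hC hφ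
  rintro _ ⟨ψ, hψ, rfl⟩
  exact h ψ hψ

lemma isClosed_ge (x : X) (c : ℝ) : IsClosed {φ : WeakDual ℝ X | c ≤ φ x} :=
  isClosed_le continuous_const (WeakDual.eval_continuous x)

/-- Linear lower bounds pass to the envelope. -/
lemma Ienv_lower {S : Set (StrongDual ℝ X)} (x : X) (c : ℝ) (h : ∀ φ ∈ S, c ≤ φ x)
    {ψ : StrongDual ℝ X} (hψ : ψ ∈ Ienv S) : c ≤ ψ x := by
  have h1 := hψ (fun _ => S) (by rw [iUnion_const])
  have hcl : IsClosed {φ : StrongDual ℝ X | c ≤ φ x} :=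
    isClosed_le continuous_const (by fun_prop)
  have hcv : Convex ℝ {φ : StrongDual ℝ X | c ≤ φ x} := by
    intro φ hφ ψ hψ a b ha hb hab
    simp only [mem_ofPred_eq] at *
    change c ≤ a * φ x + b * ψ x
    calc c = a * c + b * c := by rw [← add_mul, hab, one_mul]
      _ ≤ _ := add_le_add (mul_le_mul_of_nonneg_left hφ ha) (mul_le_mul_of_nonneg_left hψ hb)
  refine closure_minimal (convexHull_min ?_ hcv) hcl h1
  rw [iUnion_subset_iff]
  intro _ φ hφ
  refine wcl_subset (isClosed_ge x c) ?_ φ hφ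
  intro φ hφ
  exact convexHull_min (fun φ hφ => h φ hφ) hcv hφ

/-- If a cover of `S` consists of sets on which the functionals eventually vanish along the bounded
sequence `v`, then the elements of the envelope tend to zero along `v`. -/
lemma Ienv_vanish {S : Set (StrongDual ℝ X)} (v : ℕ → X) (C : ℝ) (hC : ∀ i, ‖v i‖ ≤ C)
    (h : ∀ φ ∈ S, ∃ j, ∀ i, j ≤ i → φ (v i) = 0)
    {ψ : StrongDual ℝ X} (hψ : ψ ∈ Ienv S) {ε : ℝ} (hε : 0 < ε) : ∃ j, ∀ i, j ≤ i →
      ψ (v i) ≤ ε := by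
  have h1 := hψ (fun j => {φ ∈ S | ∀ i, j ≤ i → φ (v i) = 0}) (by
    ext φ
    simp only [mem_iUnion, mem_ofPred_eq]
    constructor
    · intro hφ
      obtain ⟨j, hj⟩ := h φ hφ
      exact ⟨j, hφ, hj⟩
    · rintro ⟨j, hφ, _⟩
      exact hφ)
  set Z : Set (StrongDual ℝ X) := {φ | ∃ j, ∀ i, j ≤ i → φ (v i) = 0} with hZ
  have hZc : Convex ℝ Z := by
    rintro φ ⟨j, hj⟩ φ' ⟨j', hj'⟩ a b _ _ _
    refine ⟨max j j', fun i hi => ?_⟩
    change a * φ (v i) + b * φ' (v i) = 0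
    rw [hj i ((le_max_left _ _).trans hi), hj' i ((le_max_right _ _).trans hi)]
    ring
  have h2 : convexHull ℝ (⋃ j, wcl (convexHull ℝ {φ ∈ S | ∀ i, j ≤ i → φ (v i) = 0})) ⊆ Z := by
    refine convexHull_min ?_ hZc
    rw [iUnion_subset_iff]
    intro j φ hφ
    refine ⟨j, ?_⟩
    have hcl : IsClosed {φ : WeakDual ℝ X | ∀ i, j ≤ i → φ (v i) = 0} := by
      simp only [ofPred_forall]
      refine isClosed_iInter (fun i => isClosed_iInter (fun _ => ?_))
      exact isClosed_eq (WeakDual.eval_continuous _) continuous_const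
    refine wcl_subset hcl ?_ φ hφ
    intro φ hφ
    have hcv : Convex ℝ {φ : StrongDual ℝ X | ∀ i, j ≤ i → φ (v i) = 0} := by
      intro φ hφ φ' hφ' a b _ _ _ i hi
      change a * φ (v i) + b * φ' (v i) = 0
      rw [hφ i hi, hφ' i hi]
      ring
    exact convexHull_min (fun φ hφ => hφ.2) hcv hφ
  have hC0 : 0 ≤ C := (norm_nonneg _).trans (hC 0)
  obtain ⟨φ, hφ, hd⟩ := Metric.mem_closure_iff.mp h1 (ε / (C + 1)) (by positivity)
  obtain ⟨j, hj⟩ := h2 hφ
  refine ⟨j, fun i hi => ?_⟩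
  rw [dist_eq_norm] at hd
  have h3 : ψ (v i) = (ψ - φ) (v i) := by
    rw [sub_apply, hj i hi, sub_zero]
  rw [h3]
  calc (ψ - φ) (v i) ≤ ‖(ψ - φ) (v i)‖ := le_abs_self _
    _ ≤ ‖ψ - φ‖ * ‖v i‖ := ContinuousLinearMap.le_opNorm _ _
    _ ≤ (ε / (C + 1)) * (C + 1) := by
        apply mul_le_mul hd.le _ (norm_nonneg _) (by positivity)
        linarith [hC i]
    _ = ε := by field_simp

end Pool.Agent.X171.IE
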