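import Pool.Agent.X171.IE.Main

open Finset Filter Topology
open scoped BoundedContinuousFunction

namespace Pool.Agent.X171.IE

lemma X.prop_a (x : X) (q : J) : x.f q = ∑ i ∈ range q.L, x.f (sing q.k (q.u i)) :=
  (Subtype.property (show Xs from x)).1 q

lemma X.prop_b (x : X) (k : ℕ) {ε : ℝ} (hε : 0 < ε) :
    ∃ n, ∀ a b, Agree n a b → |x.f (sing k a) - x.f (sing k b)| ≤ ε :=
  (Subtype.property (show Xs from x)).2 k ε hε

/-- The key combinatorial lemma: for every countable cover `E` of the infinite sets and every `m`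
there is a finite set `s` of integers `≥ m` which is in the closure of one of the sets `E j`. -/
lemma key (E : ℕ → Set (Set ℕ)) (hE : ∀ f : Set ℕ, f.Infinite → ∃ j, f ∈ E j) (m : ℕ) :
    ∃ s : Set ℕ, s.Finite ∧ (∃ j, ∀ n, ∃ f ∈ E j, f.Infinite ∧ Agree n f s) ∧ m ≤ sInf s := by
  classical
  by_contra hcon
  push Not at hcon
  have h1 : ∀ (s : Finset ℕ) (j : ℕ), ∃ n, (s.Nonempty ∧ ∀ i ∈ s, m ≤ i) →
      ∀ f ∈ E j, f.Infinite → ¬ Agree n f (s : Set ℕ) := by
    intro s j
    by_cases hs : s.Nonempty ∧ ∀ i ∈ s, m ≤ i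
    · by_contra hno
      push Not at hno
      have h2 := hcon (s : Set ℕ) s.finite_toSet ⟨j, fun n => by
        obtain ⟨_, f, hf1, hf2, hf3⟩ := hno n
        exact ⟨f, hf1, hf2, hf3⟩⟩
      have h3 : sInf (s : Set ℕ) ∈ (s : Set ℕ) := Nat.sInf_mem (Finset.coe_nonempty.mpr hs.1)
      exact absurd (hs.2 _ h3) (not_le.mpr h2)
    · exact ⟨0, fun h => absurd h hs⟩
  choose N hN using h1
  set sq : ℕ → ℕ × Finset ℕ := fun n => Nat.rec (m, {m})
    (fun j st => (max (N st.2 j) (st.1 + 1), insert (max (N st.2 j) (st.1 + 1)) st.2)) n with hsq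
  have hs0 : sq 0 = (m, {m}) := rfl
  have hss : ∀ j, sq (j + 1) = (max (N (sq j).2 j) ((sq j).1 + 1),
      insert (max (N (sq j).2 j) ((sq j).1 + 1)) (sq j).2) := fun _ => rfl
  set x : ℕ → ℕ := fun j => (sq j).1 with hx
  have hx0 : x 0 = m := rfl
  have hxs : ∀ j, x (j + 1) = max (N (sq j).2 j) (x j + 1) := fun j => by
    rw [hx]
  have hxm : StrictMono x := strictMono_nat_of_lt_succ (fun j => by
    rw [hxs]
    exact lt_of_lt_of_le (Nat.lt_succ_self _) (le_max_right _ _))
  have hsx : ∀ j, (sq j).2 = (range (j + 1)).image x := by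
    intro j
    induction j with
    | zero => rw [hs0]; simp [hx0]
    | succ j ih =>
      have e : (sq (j + 1)).2 = insert (x (j + 1)) (sq j).2 := by
        rw [hxs]
      rw [e, ih, Finset.range_add_one (n := j + 1), Finset.image_insert]
  have hge : ∀ j, m ≤ x j := fun j => by
    rw [← hx0]; exact hxm.monotone (Nat.zero_le j)
  have hinf : (Set.range x).Infinite := Set.infinite_range_of_injective hxm.injective
  obtain ⟨j, hj⟩ := hE _ hinf
  refine hN (sq j).2 j ⟨?_, ?_⟩ _ hj hinf ?_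
  · rw [hsx]
    exact ⟨x 0, Finset.mem_image_of_mem _ (Finset.mem_range.mpr (Nat.succ_pos _))⟩
  · intro i hi
    rw [hsx, Finset.mem_image] at hi
    obtain ⟨l, _, rfl⟩ := hi
    exact hge l
  · intro i hi
    constructor
    · rintro ⟨l, rfl⟩
      rw [hsx, Finset.mem_coe, Finset.mem_image]
      refine ⟨l, ?_, rfl⟩
      rw [Finset.mem_range]
      apply hxm.lt_iff_lt.mp
      rw [hxs]
      exact lt_of_lt_of_le hi (le_max_left _ _)
    · intro h
      rw [hsx, Finset.mem_coe, Finset.mem_image] at h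
      obtain ⟨l, _, hl⟩ := h
      exact ⟨l, hl⟩

/-- Admissible sequences of sets with a given property. -/
lemma exists_seq (P : Set ℕ → Prop) (hP : ∀ m, ∃ s : Set ℕ, s.Finite ∧ P s ∧ m ≤ sInf s) :
    ∃ u : ℕ → Set ℕ, (∀ i, P (u i)) ∧ ∀ i j, i < j → R (u i) (u j) := by
  choose nx h1 h2 h3 using hP
  set mm : ℕ → ℕ := fun n => Nat.rec 0 (fun _ m => max m (nx m).ncard) n with hmm
  have hs : ∀ j, mm (j + 1) = max (mm j) (nx (mm j)).ncard := fun _ => rfl
  have hmono : Monotone mm := monotone_nat_of_le_succ (fun j => by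
    rw [hs]; exact le_max_left _ _)
  refine ⟨fun i => nx (mm i), fun i => h2 _, fun i j hij => ⟨h1 _, ?_⟩⟩
  calc (nx (mm i)).ncard ≤ mm (i + 1) := by rw [hs]; exact le_max_right _ _
    _ ≤ mm j := hmono hij
    _ ≤ _ := h3 _

/-- Limits of evaluations are in the weak-star closed convex hulls. -/
lemma mem_wcl {S : Set (StrongDual ℝ X)} {k : ℕ} {s : Set ℕ} (c : ℝ)
    (h : ∀ n, ∃ f : Set ℕ, c • D k f ∈ S ∧ Agree n f s) : c • D k s ∈ wcl (convexHull ℝ S) := by
  choose f hf1 hf2 using h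
  have ht : Tendsto (fun n => StrongDual.toWeakDual (c • D k (f n))) atTop
      (𝓝 (StrongDual.toWeakDual (c • D k s))) := by
    rw [tendsto_iff_forall_eval_tendsto_topDualPairing]
    intro x
    have h1 : Tendsto (fun n => x.f (sing k (f n))) atTop (𝓝 (x.f (sing k s))) := by
      rw [Metric.tendsto_atTop]
      intro ε hε
      obtain ⟨n, hn⟩ := x.prop_b k (half_pos hε)
      refine ⟨n, fun i hi => ?_⟩
      rw [Real.dist_eq]
      have := hn (f i) s ((hf2 i).mono hi)
      linarith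
    exact h1.const_mul c
  have hm : StrongDual.toWeakDual (c • D k s) ∈
      closure (StrongDual.toWeakDual '' (convexHull ℝ S) : Set (WeakDual ℝ X)) := by
    refine mem_closure_of_tendsto ht (Eventually.of_forall (fun n => ?_))
    exact Set.mem_image_of_mem _ (subset_convexHull ℝ S (hf1 n))
  exact hm

theorem lower : (0 : StrongDual ℝ X) ∈ Ienv A := by
  intro B hB
  rw [Metric.mem_closure_iff]
  intro ε hε
  obtain ⟨k, hk⟩ := exists_nat_one_div_lt hε
  set E : ℕ → Set (Set ℕ) := fun j => {f | ((k : ℝ) + 1) • D k f ∈ B j} with hE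
  have hcov : ∀ f : Set ℕ, f.Infinite → ∃ j, f ∈ E j := by
    intro f hf
    have h1 : ((k : ℝ) + 1) • D k f ∈ A := ⟨k, f, hf, rfl⟩
    rw [hB, Set.mem_iUnion] at h1
    exact h1
  obtain ⟨u, hu1, hu2⟩ := exists_seq _ (key E hcov)
  set S := ⋃ n, wcl (convexHull ℝ (B n)) with hS
  have hmem : ∀ i, ((k : ℝ) + 1) • D k (u i) ∈ S := by
    intro i
    obtain ⟨j, hj⟩ := hu1 i
    rw [hS, Set.mem_iUnion]
    refine ⟨j, mem_wcl _ (fun n => ?_)⟩
    obtain ⟨f, hf, _, hag⟩ := hj n
    exact ⟨f, hf, hag⟩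
  set L : ℕ := (k + 1) ^ 2 with hL
  have hLpos : (0 : ℝ) < L := by rw [hL]; positivity
  set z : StrongDual ℝ X := ∑ i ∈ range L, ((1 : ℝ) / L) • (((k : ℝ) + 1) • D k (u i)) with hz
  refine ⟨z, ?_, ?_⟩
  · refine (convex_convexHull ℝ S).sum_mem (fun _ _ => by positivity) ?_
      (fun i _ => subset_convexHull ℝ S (hmem i))
    rw [Finset.sum_const, Finset.card_range, nsmul_eq_mul]
    field_simp
  · rw [dist_comm, dist_zero_right]
    refine lt_of_le_of_lt ?_ hk
    refine ContinuousLinearMap.opNorm_le_bound _ (by positivity) (fun x => ?_)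
    have h1 : z x = (1 / ((k : ℝ) + 1)) * ∑ i ∈ range L, x.f (sing k (u i)) := by
      rw [hz, _root_.sum_apply, Finset.mul_sum]
      apply Finset.sum_congr rfl
      intro i _
      change (1 / (L : ℝ)) * (((k : ℝ) + 1) * x.f (sing k (u i))) = _
      rw [hL]
      push_cast
      have : (k : ℝ) + 1 ≠ 0 := by positivity
      field_simp
    set q : J := ⟨(k, L, u), le_rfl, fun i j hij _ => hu2 i j hij⟩ with hq
    have h2 : x.f q = ∑ i ∈ range L, x.f (sing k (u i)) := x.prop_a q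
    rw [h1, ← h2, norm_mul, Real.norm_of_nonneg (by positivity : (0 : ℝ) ≤ 1 / ((k : ℝ) + 1))]
    exact mul_le_mul_of_nonneg_left (BoundedContinuousFunction.norm_coe_le_norm x.f q)
      (by positivity)

end Pool.Agent.X171.IE
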