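import Pool.Agent.X171.IE.Space

open Finset Filter Topology
open scoped BoundedContinuousFunction

namespace Pool.Agent.X171.IE

/-- The set of functionals. -/
def A : Set (StrongDual ℝ X) :=
  {φ | ∃ (k : ℕ) (f : Set ℕ), f.Infinite ∧ φ = ((k : ℝ) + 1) • D k f}

lemma smulD_V (c : ℝ) (k' k : ℕ) (W : Set (Set ℕ)) (hW : Clo W) (a : Set ℕ) :
    (c • D k' a) (V k W hW) = c * if k' = k then ind W a else 0 := by
  rw [← D_V]
  rfl

lemma empty_clo : Clo ∅ := ⟨0, fun _ _ _ => Iff.rfl⟩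

lemma V_empty (k : ℕ) (h : Clo ∅) : V k ∅ h = 0 := by
  have hn : ‖V k ∅ h‖ = 0 := by
    apply le_antisymm _ (norm_nonneg _)
    refine (BoundedContinuousFunction.norm_le le_rfl).mpr (fun q => ?_)
    change ‖(V k ∅ h).f q‖ ≤ 0
    rw [V_apply]
    split_ifs with h2
    · rw [Finset.sum_eq_zero, norm_zero]
      intro i _
      apply ind_of_not_mem
      exact Set.notMem_empty _
    · rw [norm_zero]
  exact norm_eq_zero.mp hn

/-- An infinite set belongs to some test set. -/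
lemma exists_U {f : Set ℕ} (hf : f.Infinite) : ∃ m M, f ∈ U m M := by
  classical
  obtain ⟨i, hi⟩ := hf.nonempty
  obtain ⟨t, ht, hcard⟩ := hf.exists_subset_card_eq (i + 2)
  refine ⟨i + 1, t.sup id + 1, ⟨i, Nat.lt_succ_self _, hi⟩, ?_⟩
  have : t ⊆ (range (t.sup id + 1)).filter (fun j => j ∈ f) := by
    intro j hj
    rw [Finset.mem_filter, Finset.mem_range]
    exact ⟨Nat.lt_succ_of_le (Finset.le_sup (f := id) hj), ht hj⟩
  have h2 := Finset.card_le_card this
  unfold cnt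
  omega

lemma norm_D_ge {k : ℕ} {f : Set ℕ} (hf : f.Infinite) :
    (k : ℝ) + 1 ≤ ‖((k : ℝ) + 1) • D k f‖ := by
  obtain ⟨m, M, hU⟩ := exists_U hf
  have h1 : ‖V k (U m M) (U_clo m M)‖ ≤ 1 := by
    refine (BoundedContinuousFunction.norm_le zero_le_one).mpr (fun q => ?_)
    change ‖(V k (U m M) (U_clo m M)).f q‖ ≤ 1
    rw [V_apply]
    split_ifs
    · rw [Real.norm_of_nonneg (Finset.sum_nonneg (fun i _ => ind_nonneg _ _))]
      exact (U_good m M).sum_le q
    · rw [norm_zero]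
      exact zero_le_one
  have h2 : (((k : ℝ) + 1) • D k f) (V k (U m M) (U_clo m M)) = (k : ℝ) + 1 := by
    rw [smulD_V, if_pos rfl, ind_of_mem hU, mul_one]
  have h3 := (((k : ℝ) + 1) • D k f).le_opNorm (V k (U m M) (U_clo m M))
  rw [h2] at h3
  calc (k : ℝ) + 1 ≤ ‖(k : ℝ) + 1‖ := le_abs_self _
    _ ≤ ‖((k : ℝ) + 1) • D k f‖ * ‖V k (U m M) (U_clo m M)‖ := h3
    _ ≤ ‖((k : ℝ) + 1) • D k f‖ * 1 := mul_le_mul_of_nonneg_left h1 (norm_nonneg _)
    _ = _ := mul_one _

section Upper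

variable {n : ℕ} {ψ : StrongDual ℝ X}

lemma mem_part {φ : StrongDual ℝ X} (h : φ ∈ A ∩ Metric.closedBall 0 (n : ℝ)) :
    ∃ (k : ℕ) (f : Set ℕ), k < n ∧ f.Infinite ∧ φ = ((k : ℝ) + 1) • D k f := by
  obtain ⟨⟨k, f, hf, rfl⟩, h2⟩ := h
  refine ⟨k, f, ?_, hf, rfl⟩
  rw [mem_closedBall_zero_iff] at h2
  have h3 := (norm_D_ge (k := k) hf).trans h2
  have h4 : ((k + 1 : ℕ) : ℝ) ≤ (n : ℝ) := by push_cast; exact h3
  have h5 : k + 1 ≤ n := by exact_mod_cast h4
  omega

lemma pos (hψ : ψ ∈ Ienv (A ∩ Metric.closedBall 0 (n : ℝ))) (k : ℕ) (W : Set (Set ℕ))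
    (hW : Clo W) : 0 ≤ ψ (V k W hW) := by
  refine Ienv_lower _ _ ?_ hψ
  intro φ hφ
  obtain ⟨k', f, _, _, rfl⟩ := mem_part hφ
  rw [smulD_V]
  split_ifs
  · exact mul_nonneg (by positivity) (ind_nonneg _ _)
  · simp

lemma cover (hψ : ψ ∈ Ienv (A ∩ Metric.closedBall 0 (n : ℝ))) (k : ℕ) (W W₁ : Set (Set ℕ))
    (hW : Clo W) (hW₁ : Clo W₁) {ι : Type} (T : Finset ι) (Wt : ι → Set (Set ℕ))
    (hWt : ∀ t, Clo (Wt t)) (hsub : ∀ x ∈ W, x ∈ W₁ ∨ ∃ t ∈ T, x ∈ Wt t) :
    ψ (V k W hW) ≤ ψ (V k W₁ hW₁) + ∑ t ∈ T, ψ (V k (Wt t) (hWt t)) := by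
  have h1 : 0 ≤ ψ (V k W₁ hW₁ + ∑ t ∈ T, V k (Wt t) (hWt t) - V k W hW) := by
    refine Ienv_lower _ _ ?_ hψ
    intro φ hφ
    obtain ⟨k', f, _, _, rfl⟩ := mem_part hφ
    rw [map_sub, map_add, map_sum]
    simp only [smulD_V]
    split_ifs with h
    · rw [← Finset.mul_sum, ← mul_add, ← mul_sub]
      apply mul_nonneg (by positivity)
      rw [sub_nonneg]
      have hs : 0 ≤ ∑ t ∈ T, ind (Wt t) f := Finset.sum_nonneg (fun t _ => ind_nonneg _ _)
      by_cases hf : f ∈ W
      · rw [ind_of_mem hf]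
        rcases hsub f hf with h1 | ⟨t, ht, h1⟩
        · rw [ind_of_mem h1]; linarith
        · have h2 : ind (Wt t) f ≤ ∑ t ∈ T, ind (Wt t) f :=
            Finset.single_le_sum (f := fun t => ind (Wt t) f) (fun t _ => ind_nonneg _ _) ht
          rw [ind_of_mem h1] at h2
          have := ind_nonneg W₁ f
          linarith
      · rw [ind_of_not_mem hf]
        have := ind_nonneg W₁ f
        linarith
    · simp
  rw [map_sub, map_add, map_sum] at h1
  linarith

/-- No mass at the finite sets. -/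
lemma nomass (hψ : ψ ∈ Ienv (A ∩ Metric.closedBall 0 (n : ℝ))) (k : ℕ) {s : Set ℕ}
    (hs : s.Finite) {ε : ℝ} (hε : 0 < ε) :
    ∃ j, ∀ i, j ≤ i → ψ (V k (Nb s i) (Nb_clo s i)) ≤ ε := by
  refine Ienv_vanish (fun i => V k (Nb s i) (Nb_clo s i)) (((k : ℝ) + 1) ^ 2)
    (fun i => norm_V_le _ _ _) ?_ hψ hε
  intro φ hφ
  obtain ⟨k', f, _, hf, rfl⟩ := mem_part hφ
  obtain ⟨e, he, hes⟩ := (hf.sdiff hs).nonempty
  refine ⟨e + 1, fun i hi => ?_⟩
  rw [smulD_V]
  split_ifs
  · rw [ind_of_not_mem, mul_zero]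
    intro h
    exact hes ((h e (by omega)).mp he)
  · rw [mul_zero]

lemma nosmall (hψ : ψ ∈ Ienv (A ∩ Metric.closedBall 0 (n : ℝ))) (k h : ℕ) :
    ∀ ε : ℝ, 0 < ε → ∃ j, ∀ i, j ≤ i → ψ (V k (Sm h i) (Sm_clo h i)) ≤ ε := by
  classical
  induction h with
  | zero =>
    intro ε hε
    refine ⟨0, fun i _ => ?_⟩
    have h1 := cover hψ k (Sm 0 i) ∅ (Sm_clo 0 i) empty_clo (∅ : Finset ℕ)
      (fun _ => ∅) (fun _ => empty_clo) (fun x hx => absurd hx (Nat.not_lt_zero _))
    have h2 := V_empty k empty_clo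
    rw [h2, map_zero, Finset.sum_empty] at h1
    linarith
  | succ h ih =>
    intro ε hε
    obtain ⟨M₀, hM₀⟩ := ih (ε / 2) (half_pos hε)
    -- the subsets of `range M₀`
    set T := (range M₀).powerset with hT
    have hcard : (0 : ℝ) < 2 * ((T.card : ℝ) + 1) := by positivity
    have hall : ∀ s : Finset ℕ, ∃ j, ∀ i, j ≤ i →
        ψ (V k (Nb (s : Set ℕ) i) (Nb_clo _ i)) ≤ ε / (2 * ((T.card : ℝ) + 1)) :=
      fun s => nomass hψ k s.finite_toSet (by positivity)
    choose jj hjj using hall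
    refine ⟨max M₀ (T.sup jj), fun i hi => ?_⟩
    have hi1 : M₀ ≤ i := (le_max_left _ _).trans hi
    have hi2 : T.sup jj ≤ i := (le_max_right _ _).trans hi
    have h1 := cover hψ k (Sm (h + 1) i) (Sm h M₀) (Sm_clo _ _) (Sm_clo _ _) T
      (fun s => Nb (s : Set ℕ) i) (fun s => Nb_clo _ i) (by
        intro x hx
        by_cases hx2 : cnt x M₀ < h
        · exact Or.inl hx2
        · right
          refine ⟨(range M₀).filter (fun j => j ∈ x), ?_, ?_⟩
          · rw [hT, Finset.mem_powerset]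
            exact Finset.filter_subset _ _
          · intro e he
            have hx3 : cnt x i < h + 1 := hx
            have hx4 := cnt_mono x hi1
            have hx5 : cnt x M₀ = cnt x i := by omega
            rw [Finset.coe_filter]
            constructor
            · intro hex
              refine ⟨?_, hex⟩
              -- equality of the two filters
              have hsub : (range M₀).filter (fun j => j ∈ x) ⊆ (range i).filter (fun j => j ∈ x) :=
                Finset.filter_subset_filter _ (Finset.range_subset_range.mpr hi1)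
              have heq := Finset.eq_of_subset_of_card_le hsub (by
                unfold cnt at hx5
                rw [← hx5])
              have hmem : e ∈ (range i).filter (fun j => j ∈ x) := by
                rw [Finset.mem_filter, Finset.mem_range]
                exact ⟨he, hex⟩
              rw [← heq, Finset.mem_filter] at hmem
              exact hmem.1
            · rintro ⟨_, h2⟩
              exact h2)
    have h2 : ∑ t ∈ T, ψ (V k (Nb (t : Set ℕ) i) (Nb_clo _ i)) ≤ ε / 2 := by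
      calc ∑ t ∈ T, ψ (V k (Nb (t : Set ℕ) i) (Nb_clo _ i))
          ≤ ∑ t ∈ T, ε / (2 * ((T.card : ℝ) + 1)) :=
            Finset.sum_le_sum (fun t ht => hjj t i ((Finset.le_sup (f := jj) ht).trans hi2))
        _ = (T.card : ℝ) * (ε / (2 * ((T.card : ℝ) + 1))) := by
            rw [Finset.sum_const, nsmul_eq_mul]
        _ ≤ ((T.card : ℝ) + 1) * (ε / (2 * ((T.card : ℝ) + 1))) :=
            mul_le_mul_of_nonneg_right (by linarith) (by positivity)
        _ = ε / 2 := by field_simp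
    have h3 := hM₀ M₀ le_rfl
    linarith

/-- Almost all the mass is on a good test set. -/
lemma almost (hψ : ψ ∈ Ienv (A ∩ Metric.closedBall 0 (n : ℝ))) (k : ℕ) {ε : ℝ} (hε : 0 < ε) :
    ∃ m M, ψ (V k Set.univ univ_clo) ≤ ψ (V k (U m M) (U_clo m M)) + ε := by
  obtain ⟨m, hm⟩ := nomass hψ k Set.finite_empty (half_pos hε)
  obtain ⟨M, hM⟩ := nosmall hψ k (m + 1) (ε / 2) (half_pos hε)
  refine ⟨m, M, ?_⟩
  have hcb : ∀ t : Bool, Clo (if t then Nb ∅ m else Sm (m + 1) M) := by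
    intro t
    split_ifs
    · exact Nb_clo _ _
    · exact Sm_clo _ _
  have h1 := cover hψ k Set.univ (U m M) univ_clo (U_clo m M) (Finset.univ : Finset Bool)
    (fun t => if t then Nb ∅ m else Sm (m + 1) M) hcb (by
      intro x _
      by_cases h1 : ∃ i < m, i ∈ x
      · by_cases h2 : m < cnt x M
        · exact Or.inl ⟨h1, h2⟩
        · right
          refine ⟨false, Finset.mem_univ _, ?_⟩
          simp only [Bool.false_eq_true, if_false]
          change cnt x M < m + 1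
          omega
      · right
        refine ⟨true, Finset.mem_univ _, ?_⟩
        simp only [if_true]
        intro i hi
        constructor
        · intro hix
          exact absurd ⟨i, hi, hix⟩ h1
        · intro hi'
          exact absurd hi' (Set.notMem_empty i))
  rw [Fintype.sum_bool] at h1
  have h2 := hm m le_rfl
  have h3 := hM M le_rfl
  simp only [if_true, Bool.false_eq_true, if_false] at h1
  linarith

theorem upper (hψ : ψ ∈ Ienv (A ∩ Metric.closedBall 0 (n : ℝ))) : 1 ≤ ‖ψ‖ := by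
  apply le_of_forall_pos_le_add
  intro ε hε
  have hδ : 0 < ε / ((n : ℝ) + 1) := by positivity
  have hk := fun k => almost hψ k hδ
  choose m M hmM using hk
  have h1 := norm_sum_le n (fun k => U (m k) (M k)) (fun k => U_clo _ _) (fun k => U_good _ _)
  have h2 : 1 ≤ ψ (∑ k ∈ range n, V k Set.univ univ_clo) := by
    refine Ienv_lower _ _ ?_ hψ
    intro φ hφ
    obtain ⟨k', f, hk', _, rfl⟩ := mem_part hφ
    rw [map_sum]
    simp only [smulD_V]
    rw [Finset.sum_eq_single k']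
    · rw [if_pos rfl, ind_of_mem (Set.mem_univ _), mul_one]
      linarith [(Nat.cast_nonneg k' : (0 : ℝ) ≤ k')]
    · intro b _ hb
      rw [if_neg (Ne.symm hb), mul_zero]
    · intro h
      exact absurd (Finset.mem_range.mpr hk') h
  have h3 : ψ (∑ k ∈ range n, V k Set.univ univ_clo) ≤
      ψ (∑ k ∈ range n, V k (U (m k) (M k)) (U_clo _ _)) + ε := by
    rw [map_sum, map_sum]
    calc ∑ k ∈ range n, ψ (V k Set.univ univ_clo)
        ≤ ∑ k ∈ range n, (ψ (V k (U (m k) (M k)) (U_clo _ _)) + ε / ((n : ℝ) + 1)) :=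
          Finset.sum_le_sum (fun k _ => hmM k)
      _ = ∑ k ∈ range n, ψ (V k (U (m k) (M k)) (U_clo _ _)) + n * (ε / ((n : ℝ) + 1)) := by
          rw [Finset.sum_add_distrib, Finset.sum_const, Finset.card_range, nsmul_eq_mul]
      _ ≤ _ := by
          have : (n : ℝ) * (ε / ((n : ℝ) + 1)) ≤ ((n : ℝ) + 1) * (ε / ((n : ℝ) + 1)) :=
            mul_le_mul_of_nonneg_right (by linarith) hδ.le
          rw [mul_div_cancel₀ _ (by positivity)] at this
          linarith
  have h4 : ψ (∑ k ∈ range n, V k (U (m k) (M k)) (U_clo _ _)) ≤ ‖ψ‖ := by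
    calc ψ (∑ k ∈ range n, V k (U (m k) (M k)) (U_clo _ _))
        ≤ ‖ψ (∑ k ∈ range n, V k (U (m k) (M k)) (U_clo _ _))‖ := le_abs_self _
      _ ≤ ‖ψ‖ * ‖∑ k ∈ range n, V k (U (m k) (M k)) (U_clo _ _)‖ := ψ.le_opNorm _
      _ ≤ ‖ψ‖ * 1 := mul_le_mul_of_nonneg_left h1 (norm_nonneg _)
      _ = ‖ψ‖ := mul_one _
  linarith

end Upper

end Pool.Agent.X171.IE
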