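import Pool.Agent.X171.IE.Lower

/-!
# The quantitative version of separation from the (I)-envelope
-/

open Finset Filter Topology
open scoped BoundedContinuousFunction

namespace Pool.Agent.X171.IE

section Defs

variable {Y : Type} [NormedAddCommGroup Y] [NormedSpace ℝ Y]

/-- `d₁(η)`: the norm distance from `η` to the (I)-envelope of `S`, as an extended real number. -/
noncomputable def d1 (S : Set (StrongDual ℝ Y)) (η : StrongDual ℝ Y) : EReal :=
  ((Metric.infEDist η (Ienv S) : ENNReal) : EReal)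

/-- `s_η(x) = inf_k η(x_k) - sup_{ξ ∈ S} limsup_k ξ(x_k)`. -/
noncomputable def sep (S : Set (StrongDual ℝ Y)) (η : StrongDual ℝ Y) (x : ℕ → Y) : EReal :=
  (⨅ k, ((η (x k) : ℝ) : EReal)) - ⨆ ξ ∈ S, limsup (fun k => ((ξ (x k) : ℝ) : EReal)) atTop

/-- `d₂(η)`: the supremum of `s_η(x)` over all sequences `x` in the closed unit ball. -/
noncomputable def d2 (S : Set (StrongDual ℝ Y)) (η : StrongDual ℝ Y) : EReal :=
  ⨆ (x : ℕ → Y) (_ : ∀ k, ‖x k‖ ≤ 1), sep S η x

lemma subset_Ienv (S : Set (StrongDual ℝ Y)) : S ⊆ Ienv S := by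
  intro φ hφ B hB
  apply subset_closure
  apply subset_convexHull ℝ _
  rw [hB, Set.mem_iUnion] at hφ
  obtain ⟨n, hn⟩ := hφ
  exact Set.mem_iUnion.mpr ⟨n, subset_wcl _ (subset_convexHull ℝ _ hn)⟩

end Defs

/-- The evaluations at the infinite sets on level `k`. -/
def Ak (k : ℕ) : Set (StrongDual ℝ X) := {φ | ∃ f : Set ℕ, f.Infinite ∧ φ = D k f}

lemma norm_D_le (k : ℕ) (a : Set ℕ) : ‖D k a‖ ≤ 1 :=
  LinearMap.mkContinuous_norm_le _ zero_le_one _

section Upper

variable {k : ℕ} {ψ : StrongDual ℝ X}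

lemma pos' (hψ : ψ ∈ Ienv (Ak k)) (W : Set (Set ℕ)) (hW : Clo W) : 0 ≤ ψ (V k W hW) := by
  refine Ienv_lower _ _ ?_ hψ
  rintro φ ⟨f, _, rfl⟩
  rw [D_V, if_pos rfl]
  exact ind_nonneg _ _

lemma cover' (hψ : ψ ∈ Ienv (Ak k)) (W W₁ : Set (Set ℕ))
    (hW : Clo W) (hW₁ : Clo W₁) {ι : Type} (T : Finset ι) (Wt : ι → Set (Set ℕ))
    (hWt : ∀ t, Clo (Wt t)) (hsub : ∀ x ∈ W, x ∈ W₁ ∨ ∃ t ∈ T, x ∈ Wt t) :
    ψ (V k W hW) ≤ ψ (V k W₁ hW₁) + ∑ t ∈ T, ψ (V k (Wt t) (hWt t)) := by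
  have h1 : 0 ≤ ψ (V k W₁ hW₁ + ∑ t ∈ T, V k (Wt t) (hWt t) - V k W hW) := by
    refine Ienv_lower _ _ ?_ hψ
    rintro φ ⟨f, _, rfl⟩
    rw [map_sub, map_add, map_sum]
    simp only [D_V, if_true]
    rw [sub_nonneg]
    have hs : 0 ≤ ∑ t ∈ T, ind (Wt t) f := Finset.sum_nonneg (fun t _ => ind_nonneg _ _)
    by_cases hf : f ∈ W
    · rw [ind_of_mem hf]
      rcases hsub f hf with h1 | ⟨t, ht, h1⟩
      · rw [ind_of_mem h1]; linarith
      · have h2 : ind (Wt t) f ≤ ∑ t ∈ T, ind (Wt t) f :=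
          Finset.single_le_sum (f := fun t => ind (Wt t) f) (fun t _ => ind_nonneg _ _) ht
        rw [ind_of_mem h1] at h2
        have := ind_nonneg W₁ f
        linarith
    · rw [ind_of_not_mem hf]
      have := ind_nonneg W₁ f
      linarith
  rw [map_sub, map_add, map_sum] at h1
  linarith

/-- No mass at the finite sets. -/
lemma nomass' (hψ : ψ ∈ Ienv (Ak k)) {s : Set ℕ} (hs : s.Finite) {ε : ℝ} (hε : 0 < ε) :
    ∃ j, ∀ i, j ≤ i → ψ (V k (Nb s i) (Nb_clo s i)) ≤ ε := by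
  refine Ienv_vanish (fun i => V k (Nb s i) (Nb_clo s i)) (((k : ℝ) + 1) ^ 2)
    (fun i => norm_V_le _ _ _) ?_ hψ hε
  rintro φ ⟨f, hf, rfl⟩
  obtain ⟨e, he, hes⟩ := (hf.sdiff hs).nonempty
  refine ⟨e + 1, fun i hi => ?_⟩
  rw [D_V, if_pos rfl, ind_of_not_mem]
  intro h
  exact hes ((h e (by omega)).mp he)

lemma nosmall' (hψ : ψ ∈ Ienv (Ak k)) (h : ℕ) :
    ∀ ε : ℝ, 0 < ε → ∃ j, ∀ i, j ≤ i → ψ (V k (Sm h i) (Sm_clo h i)) ≤ ε := by
  classical
  induction h with
  | zero =>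
    intro ε hε
    refine ⟨0, fun i _ => ?_⟩
    have h1 := cover' hψ (Sm 0 i) ∅ (Sm_clo 0 i) empty_clo (∅ : Finset ℕ)
      (fun _ => ∅) (fun _ => empty_clo) (fun x hx => absurd hx (Nat.not_lt_zero _))
    have h2 := V_empty k empty_clo
    rw [h2, map_zero, Finset.sum_empty] at h1
    linarith
  | succ h ih =>
    intro ε hε
    obtain ⟨M₀, hM₀⟩ := ih (ε / 2) (half_pos hε)
    -- the subsets of `range M₀`
    set T := (range M₀).powerset with hT
    have hcard : (0 : ℝ) < 2 * ((T.card : ℝ) + 1) := by positivity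
    have hall : ∀ s : Finset ℕ, ∃ j, ∀ i, j ≤ i →
        ψ (V k (Nb (s : Set ℕ) i) (Nb_clo _ i)) ≤ ε / (2 * ((T.card : ℝ) + 1)) :=
      fun s => nomass' hψ s.finite_toSet (by positivity)
    choose jj hjj using hall
    refine ⟨max M₀ (T.sup jj), fun i hi => ?_⟩
    have hi1 : M₀ ≤ i := (le_max_left _ _).trans hi
    have hi2 : T.sup jj ≤ i := (le_max_right _ _).trans hi
    have h1 := cover' hψ (Sm (h + 1) i) (Sm h M₀) (Sm_clo _ _) (Sm_clo _ _) T
      (fun s => Nb (s : Set ℕ) i) (fun s => Nb_clo _ i) (by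
        intro x hx
        by_cases hx2 : cnt x M₀ < h
        · exact Or.inl hx2
        · right
          refine ⟨(range M₀).filter (fun j => j ∈ x), ?_, ?_⟩
          · rw [hT, Finset.mem_powerset]
            exact Finset.filter_subset _ _
          · intro e he
            have hx3 : cnt x i < h + 1 := hx
            have hx4 := cnt_mono x hi1
            have hx5 : cnt x M₀ = cnt x i := by omega
            rw [Finset.coe_filter]
            constructor
            · intro hex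
              refine ⟨?_, hex⟩
              -- equality of the two filters
              have hsub : (range M₀).filter (fun j => j ∈ x) ⊆ (range i).filter (fun j => j ∈ x) :=
                Finset.filter_subset_filter _ (Finset.range_subset_range.mpr hi1)
              have heq := Finset.eq_of_subset_of_card_le hsub (by
                unfold cnt at hx5
                rw [← hx5])
              have hmem : e ∈ (range i).filter (fun j => j ∈ x) := by
                rw [Finset.mem_filter, Finset.mem_range]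
                exact ⟨he, hex⟩
              rw [← heq, Finset.mem_filter] at hmem
              exact hmem.1
            · rintro ⟨_, h2⟩
              exact h2)
    have h2 : ∑ t ∈ T, ψ (V k (Nb (t : Set ℕ) i) (Nb_clo _ i)) ≤ ε / 2 := by
      calc ∑ t ∈ T, ψ (V k (Nb (t : Set ℕ) i) (Nb_clo _ i))
          ≤ ∑ t ∈ T, ε / (2 * ((T.card : ℝ) + 1)) :=
            Finset.sum_le_sum (fun t ht => hjj t i ((Finset.le_sup (f := jj) ht).trans hi2))
        _ = (T.card : ℝ) * (ε / (2 * ((T.card : ℝ) + 1))) := by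
            rw [Finset.sum_const, nsmul_eq_mul]
        _ ≤ ((T.card : ℝ) + 1) * (ε / (2 * ((T.card : ℝ) + 1))) :=
            mul_le_mul_of_nonneg_right (by linarith) (by positivity)
        _ = ε / 2 := by field_simp
    have h3 := hM₀ M₀ le_rfl
    linarith

/-- Almost all the mass is on a good test set. -/
lemma almost' (hψ : ψ ∈ Ienv (Ak k)) {ε : ℝ} (hε : 0 < ε) :
    ∃ m M, ψ (V k Set.univ univ_clo) ≤ ψ (V k (U m M) (U_clo m M)) + ε := by
  obtain ⟨m, hm⟩ := nomass' hψ Set.finite_empty (half_pos hε)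
  obtain ⟨M, hM⟩ := nosmall' hψ (m + 1) (ε / 2) (half_pos hε)
  refine ⟨m, M, ?_⟩
  have hcb : ∀ t : Bool, Clo (if t then Nb ∅ m else Sm (m + 1) M) := by
    intro t
    split_ifs
    · exact Nb_clo _ _
    · exact Sm_clo _ _
  have h1 := cover' hψ Set.univ (U m M) univ_clo (U_clo m M) (Finset.univ : Finset Bool)
    (fun t => if t then Nb ∅ m else Sm (m + 1) M) hcb (by
      intro x _
      by_cases h1 : ∃ i < m, i ∈ x
      · by_cases h2 : m < cnt x M
        · exact Or.inl ⟨h1, h2⟩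
        · right
          refine ⟨false, Finset.mem_univ _, ?_⟩
          simp only [Bool.false_eq_true, if_false]
          change cnt x M < m + 1
          omega
      · right
        refine ⟨true, Finset.mem_univ _, ?_⟩
        simp only [if_true]
        intro i hi
        constructor
        · intro hix
          exact absurd ⟨i, hi, hix⟩ h1
        · intro hi'
          exact absurd hi' (Set.notMem_empty i))
  rw [Fintype.sum_bool] at h1
  have h2 := hm m le_rfl
  have h3 := hM M le_rfl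
  simp only [if_true, Bool.false_eq_true, if_false] at h1
  linarith

theorem upper' (hψ : ψ ∈ Ienv (Ak k)) : 1 ≤ ‖ψ‖ := by
  apply le_of_forall_pos_le_add
  intro ε hε
  obtain ⟨m, M, hmM⟩ := almost' hψ hε
  have h1 : ‖V k (U m M) (U_clo m M)‖ ≤ 1 := by
    refine (BoundedContinuousFunction.norm_le zero_le_one).mpr (fun q => ?_)
    change ‖(V k (U m M) (U_clo m M)).f q‖ ≤ 1
    rw [V_apply]
    split_ifs
    · rw [Real.norm_of_nonneg (Finset.sum_nonneg (fun i _ => ind_nonneg _ _))]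
      exact (U_good m M).sum_le q
    · rw [norm_zero]
      exact zero_le_one
  have h2 : 1 ≤ ψ (V k Set.univ univ_clo) := by
    refine Ienv_lower _ _ ?_ hψ
    rintro φ ⟨f, _, rfl⟩
    rw [D_V, if_pos rfl, ind_of_mem (Set.mem_univ _)]
  have h4 : ψ (V k (U m M) (U_clo m M)) ≤ ‖ψ‖ := by
    calc ψ (V k (U m M) (U_clo m M))
        ≤ ‖ψ (V k (U m M) (U_clo m M))‖ := le_abs_self _
      _ ≤ ‖ψ‖ * ‖V k (U m M) (U_clo m M)‖ := ψ.le_opNorm _
      _ ≤ ‖ψ‖ * 1 := mul_le_mul_of_nonneg_left h1 (norm_nonneg _)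
      _ = ‖ψ‖ := mul_one _
  linarith

end Upper

lemma Ak_nonempty (k : ℕ) : (Ak k).Nonempty := ⟨D k Set.univ, Set.univ, Set.infinite_univ, rfl⟩

theorem d1_eq (k : ℕ) : d1 (Ak k) 0 = 1 := by
  have h : Metric.infEDist (0 : StrongDual ℝ X) (Ienv (Ak k)) = 1 := by
    apply le_antisymm
    · have hm : D k Set.univ ∈ Ienv (Ak k) := subset_Ienv _ ⟨Set.univ, Set.infinite_univ, rfl⟩
      refine (Metric.infEDist_le_edist_of_mem hm).trans ?_
      rw [edist_dist, dist_comm, dist_zero_right]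
      calc ENNReal.ofReal ‖D k Set.univ‖ ≤ ENNReal.ofReal 1 :=
            ENNReal.ofReal_le_ofReal (norm_D_le _ _)
        _ = 1 := ENNReal.ofReal_one
    · rw [Metric.le_infEDist]
      intro ψ hψ
      rw [edist_dist, dist_comm, dist_zero_right, ← ENNReal.ofReal_one]
      exact ENNReal.ofReal_le_ofReal (upper' hψ)
  unfold d1
  rw [h]
  rfl

/-- A sequence in the unit ball cannot be uniformly negative in the limit on `Ak k`. -/
theorem no_sep (k : ℕ) (x : ℕ → X) (hx : ∀ n, ‖x n‖ ≤ 1) {t : ℝ}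
    (ht : ∀ ξ ∈ Ak k, ∃ j, ∀ n, j ≤ n → ξ (x n) ≤ t) : -(1 / ((k : ℝ) + 1) ^ 2) ≤ t := by
  set E : ℕ → Set (Set ℕ) := fun j => {f | ∀ n, j ≤ n → D k f (x n) ≤ t} with hE
  have hcov : ∀ f : Set ℕ, f.Infinite → ∃ j, f ∈ E j := fun f hf => ht (D k f) ⟨f, hf, rfl⟩
  obtain ⟨u, hu1, hu2⟩ := exists_seq _ (key E hcov)
  have hlim : ∀ i, ∃ j, ∀ n, j ≤ n → D k (u i) (x n) ≤ t := by
    intro i
    obtain ⟨j, hj⟩ := hu1 i
    refine ⟨j, fun n hn => ?_⟩
    apply le_of_forall_pos_le_add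
    intro ε hε
    obtain ⟨N, hN⟩ := (x n).prop_b k hε
    obtain ⟨f, hf, _, hag⟩ := hj N
    have h1 := hf n hn
    have h2 := abs_le.mp (hN f (u i) hag)
    rw [D_apply] at *
    linarith [h2.1]
  choose j hj using hlim
  set L : ℕ := (k + 1) ^ 2 with hL
  set n := (range L).sup j with hn
  set q : J := ⟨(k, L, u), le_rfl, fun i j hij _ => hu2 i j hij⟩ with hq
  have h2 : (x n).f q = ∑ i ∈ range L, (x n).f (sing k (u i)) := (x n).prop_a q
  have h3 : ∑ i ∈ range L, (x n).f (sing k (u i)) ≤ ∑ i ∈ range L, t :=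
    Finset.sum_le_sum (fun i hi => hj i n (Finset.le_sup (f := j) hi))
  rw [Finset.sum_const, Finset.card_range, nsmul_eq_mul, ← h2] at h3
  have h4 : -1 ≤ (x n).f q := by
    have h5 := BoundedContinuousFunction.norm_coe_le_norm (x n).f q
    have h6 : ‖(x n).f‖ ≤ 1 := hx n
    rw [Real.norm_eq_abs] at h5
    have h7 := neg_abs_le ((x n).f q)
    linarith
  have h5 : (L : ℝ) = ((k : ℝ) + 1) ^ 2 := by rw [hL]; push_cast; ring
  rw [h5] at h3
  have h6 : (0 : ℝ) < ((k : ℝ) + 1) ^ 2 := by positivity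
  rw [neg_le, ← sub_nonneg, ← mul_nonneg_iff_of_pos_left h6, mul_sub, mul_one_div_cancel h6.ne']
  linarith

theorem d2_le (k : ℕ) : d2 (Ak k) 0 ≤ ((1 / ((k : ℝ) + 1) ^ 2 : ℝ) : EReal) := by
  unfold d2
  refine iSup₂_le (fun x hx => ?_)
  unfold sep
  have h0 : (⨅ n : ℕ, (((0 : StrongDual ℝ X) (x n) : ℝ) : EReal)) = 0 := by
    have : ∀ n : ℕ, (((0 : StrongDual ℝ X) (x n) : ℝ) : EReal) = 0 := fun n => by
      rw [_root_.zero_apply]; rfl
    simp only [this, iInf_const]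
  rw [h0, zero_sub, EReal.neg_le, ← EReal.coe_neg]
  by_contra hcon
  rw [not_le] at hcon
  obtain ⟨t, ht1, ht2⟩ := EReal.lt_iff_exists_real_btwn.mp hcon
  rw [EReal.coe_lt_coe_iff] at ht2
  refine absurd (no_sep k x hx (t := t) ?_) (not_le.mpr ht2)
  intro ξ hξ
  have h1 : limsup (fun n => ((ξ (x n) : ℝ) : EReal)) atTop < (t : EReal) :=
    lt_of_le_of_lt (le_iSup₂ (f := fun ξ (_ : ξ ∈ Ak k) =>
      limsup (fun n => ((ξ (x n) : ℝ) : EReal)) atTop) ξ hξ) ht1
  obtain ⟨j, hj⟩ := Filter.eventually_atTop.mp (Filter.eventually_lt_of_limsup_lt h1)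
  exact ⟨j, fun n hn => (EReal.coe_lt_coe_iff.mp (hj n hn)).le⟩

end Pool.Agent.X171.IE
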