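import Pool.Agent.X171.IE.Defs

open Finset Filter Topology
open scoped BoundedContinuousFunction

namespace Pool.Agent.X171.IE

/-- `u` is finite and its cardinality is at most the minimum of `v`. -/
def R (u v : Set ℕ) : Prop := u.Finite ∧ u.ncard ≤ sInf v

/-- The index set: a level `k` and a tuple `u 0, …, u (L-1)` of length `L ≤ (k+1)^2` such that
`R (u i) (u j)` for all `i < j < L`. -/
def J : Type := {q : ℕ × ℕ × (ℕ → Set ℕ) // q.2.1 ≤ (q.1 + 1) ^ 2 ∧
  ∀ i j, i < j → j < q.2.1 → R (q.2.2 i) (q.2.2 j)}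

instance : TopologicalSpace J := ⊥
instance : DiscreteTopology J := ⟨rfl⟩

namespace J
/-- The level. -/
def k (q : J) : ℕ := q.1.1
/-- The length. -/
def L (q : J) : ℕ := q.1.2.1
/-- The tuple. -/
def u (q : J) : ℕ → Set ℕ := q.1.2.2
lemma hL (q : J) : q.L ≤ (q.k + 1) ^ 2 := q.2.1
lemma hu (q : J) {i j : ℕ} (h : i < j) (h' : j < q.L) : R (q.u i) (q.u j) := q.2.2 i j h h'
end J

/-- The tuple of length one. -/
def sing (k : ℕ) (a : Set ℕ) : J := ⟨(k, 1, fun _ => a), Nat.one_le_pow _ _ (by omega), by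
  intro i j h h'
  simp only at h'
  omega⟩

@[simp] lemma sing_k (k : ℕ) (a : Set ℕ) : (sing k a).k = k := rfl
@[simp] lemma sing_L (k : ℕ) (a : Set ℕ) : (sing k a).L = 1 := rfl
@[simp] lemma sing_u (k : ℕ) (a : Set ℕ) (i : ℕ) : (sing k a).u i = a := rfl

/-- `a` and `b` have the same elements below `n`. -/
def Agree (n : ℕ) (a b : Set ℕ) : Prop := ∀ i < n, (i ∈ a ↔ i ∈ b)

lemma Agree.mono {n m : ℕ} {a b : Set ℕ} (h : Agree n a b) (hm : m ≤ n) : Agree m a b :=
  fun i hi => h i (lt_of_lt_of_le hi hm)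

/-- The space, as a subspace of the bounded functions on `J`. -/
def Xs : Submodule ℝ (J →ᵇ ℝ) where
  carrier := {x | (∀ q : J, x q = ∑ i ∈ range q.L, x (sing q.k (q.u i))) ∧
    ∀ k : ℕ, ∀ ε : ℝ, 0 < ε → ∃ n, ∀ a b, Agree n a b → |x (sing k a) - x (sing k b)| ≤ ε}
  add_mem' := by
    rintro x y ⟨h1, h2⟩ ⟨h1', h2'⟩
    refine ⟨fun q => ?_, fun k ε hε => ?_⟩
    · simp only [BoundedContinuousFunction.add_apply, Finset.sum_add_distrib]
      rw [← h1 q, ← h1' q]
    · obtain ⟨n, hn⟩ := h2 k (ε / 2) (half_pos hε)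
      obtain ⟨n', hn'⟩ := h2' k (ε / 2) (half_pos hε)
      refine ⟨max n n', fun a b hab => ?_⟩
      have e1 := hn a b (hab.mono (le_max_left _ _))
      have e2 := hn' a b (hab.mono (le_max_right _ _))
      simp only [BoundedContinuousFunction.add_apply]
      rw [abs_le] at *
      constructor <;> linarith
  zero_mem' := by
    refine ⟨fun q => by simp, fun k ε hε => ⟨0, fun a b _ => by simpa using hε.le⟩⟩
  smul_mem' := by
    rintro c x ⟨h1, h2⟩
    refine ⟨fun q => ?_, fun k ε hε => ?_⟩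
    · simp only [BoundedContinuousFunction.smul_apply, smul_eq_mul, ← Finset.mul_sum]
      rw [← h1 q]
    · obtain ⟨n, hn⟩ := h2 k (ε / (|c| + 1)) (by positivity)
      refine ⟨n, fun a b hab => ?_⟩
      simp only [BoundedContinuousFunction.smul_apply, smul_eq_mul, ← mul_sub, abs_mul]
      calc |c| * |x (sing k a) - x (sing k b)| ≤ (|c| + 1) * (ε / (|c| + 1)) :=
            mul_le_mul (by linarith) (hn a b hab) (abs_nonneg _) (by positivity)
        _ = ε := by field_simp

lemma Xs_closed : IsClosed (Xs : Set (J →ᵇ ℝ)) := by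
  apply isClosed_of_closure_subset
  intro x hx
  rw [Metric.mem_closure_iff] at hx
  refine ⟨fun q => ?_, fun k ε hε => ?_⟩
  · -- the two sides agree up to any positive number
    have key : ∀ ε : ℝ, 0 < ε → |x q - ∑ i ∈ range q.L, x (sing q.k (q.u i))| ≤ ε := by
      intro ε hε
      obtain ⟨y, hy, hd⟩ := hx (ε / (q.L + 1)) (by positivity)
      have h1 : ∀ j : J, |x j - y j| ≤ ε / (q.L + 1) := fun j => by
        have := BoundedContinuousFunction.dist_coe_le_dist (f := x) (g := y) j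
        rw [Real.dist_eq] at this
        linarith
      have h2 := hy.1 q
      have h3 : x q - ∑ i ∈ range q.L, x (sing q.k (q.u i)) =
          (x q - y q) - ∑ i ∈ range q.L, (x (sing q.k (q.u i)) - y (sing q.k (q.u i))) := by
        rw [Finset.sum_sub_distrib, ← h2]
        ring
      rw [h3]
      calc |(x q - y q) - ∑ i ∈ range q.L, (x (sing q.k (q.u i)) - y (sing q.k (q.u i)))|
          ≤ |x q - y q| + |∑ i ∈ range q.L, (x (sing q.k (q.u i)) - y (sing q.k (q.u i)))| :=
            abs_sub _ _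
        _ ≤ ε / (q.L + 1) + ∑ i ∈ range q.L, ε / (q.L + 1) :=
            add_le_add (h1 q) ((Finset.abs_sum_le_sum_abs _ _).trans
              (Finset.sum_le_sum (fun i _ => h1 _)))
        _ = ε := by
            rw [Finset.sum_const, Finset.card_range, nsmul_eq_mul]
            field_simp
            ring
    have := le_of_forall_pos_le_add (a := |x q - ∑ i ∈ range q.L, x (sing q.k (q.u i))|) (b := 0)
      (fun ε hε => by rw [zero_add]; exact key ε hε)
    have h0 := abs_eq_zero.mp (le_antisymm this (abs_nonneg _))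
    linarith
  · obtain ⟨y, hy, hd⟩ := hx (ε / 3) (by positivity)
    obtain ⟨n, hn⟩ := hy.2 k (ε / 3) (by positivity)
    refine ⟨n, fun a b hab => ?_⟩
    have h1 : ∀ j : J, |x j - y j| ≤ ε / 3 := fun j => by
      have := BoundedContinuousFunction.dist_coe_le_dist (f := x) (g := y) j
      rw [Real.dist_eq] at this
      linarith
    have e1 := abs_le.mp (h1 (sing k a))
    have e2 := abs_le.mp (h1 (sing k b))
    have e3 := abs_le.mp (hn a b hab)
    rw [abs_le]
    constructor <;> linarith [e1.1, e1.2, e2.1, e2.2, e3.1, e3.2]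

/-- The Banach space. -/
def X : Type := Xs

noncomputable instance : NormedAddCommGroup X := inferInstanceAs (NormedAddCommGroup Xs)

noncomputable instance : NormedSpace ℝ X := inferInstanceAs (NormedSpace ℝ Xs)

instance : CompleteSpace X := Xs_closed.completeSpace_coe

/-- The underlying function. -/
def X.f (x : X) : J →ᵇ ℝ := Subtype.val (show Xs from x)

lemma X.norm_def (x : X) : ‖x‖ = ‖x.f‖ := rfl

/-- The underlying function as a linear map. -/
noncomputable def X.fl : X →ₗ[ℝ] (J →ᵇ ℝ) where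
  toFun := X.f
  map_add' := fun _ _ => rfl
  map_smul' := fun _ _ => rfl

lemma X.sum_f {ι : Type} (s : Finset ι) (x : ι → X) :
    (∑ i ∈ s, x i).f = ∑ i ∈ s, (x i).f := map_sum X.fl x s

/-- Evaluation at the set `a` on level `k`, as a linear map. -/
def Dl (k : ℕ) (a : Set ℕ) : X →ₗ[ℝ] ℝ where
  toFun := fun x : X => x.f (sing k a)
  map_add' := fun _ _ => rfl
  map_smul' := fun _ _ => rfl

lemma Dl_le (k : ℕ) (a : Set ℕ) (x : X) : ‖Dl k a x‖ ≤ 1 * ‖x‖ := by
  rw [one_mul]
  exact BoundedContinuousFunction.norm_coe_le_norm x.f (sing k a)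

/-- Evaluation at the set `a` on level `k`. -/
noncomputable def D (k : ℕ) (a : Set ℕ) : StrongDual ℝ X :=
  LinearMap.mkContinuous (Dl k a) 1 (Dl_le k a)

@[simp] lemma D_apply (k : ℕ) (a : Set ℕ) (x : X) : D k a x = x.f (sing k a) := rfl

open Classical in
/-- The indicator function of a set of sets of integers. -/
noncomputable def ind (U : Set (Set ℕ)) (a : Set ℕ) : ℝ := if a ∈ U then 1 else 0

lemma ind_nonneg (U : Set (Set ℕ)) (a : Set ℕ) : 0 ≤ ind U a := by
  unfold ind; split_ifs <;> norm_num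

lemma ind_le_one (U : Set (Set ℕ)) (a : Set ℕ) : ind U a ≤ 1 := by
  unfold ind; split_ifs <;> norm_num

lemma ind_of_mem {U : Set (Set ℕ)} {a : Set ℕ} (h : a ∈ U) : ind U a = 1 := by
  unfold ind; rw [if_pos h]

lemma ind_of_not_mem {U : Set (Set ℕ)} {a : Set ℕ} (h : a ∉ U) : ind U a = 0 := by
  unfold ind; rw [if_neg h]

/-- `U` depends only on finitely many coordinates. -/
def Clo (U : Set (Set ℕ)) : Prop := ∃ n, ∀ a b, Agree n a b → (a ∈ U ↔ b ∈ U)

lemma sum_ind_le (q : J) (U : Set (Set ℕ)) :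
    ∑ i ∈ range q.L, ind U (q.u i) ≤ ((q.k : ℝ) + 1) ^ 2 := by
  calc ∑ i ∈ range q.L, ind U (q.u i) ≤ ∑ i ∈ range q.L, (1 : ℝ) :=
        Finset.sum_le_sum (fun i _ => ind_le_one _ _)
    _ = q.L := by simp
    _ ≤ _ := by exact_mod_cast q.hL

/-- The test vector given by `U` on level `k`. -/
noncomputable def Vs (k : ℕ) (U : Set (Set ℕ)) (hU : Clo U) : Xs :=
  ⟨BoundedContinuousFunction.ofNormedAddCommGroupDiscrete
    (fun q : J => if q.k = k then ∑ i ∈ range q.L, ind U (q.u i) else 0) (((k : ℝ) + 1) ^ 2)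
    (by
      intro q
      split_ifs with h
      · rw [Real.norm_of_nonneg (Finset.sum_nonneg (fun i _ => ind_nonneg _ _)), ← h]
        exact sum_ind_le q U
      · rw [norm_zero]
        positivity), by
    refine ⟨fun q => ?_, fun k' ε hε => ?_⟩
    · simp only [BoundedContinuousFunction.coe_ofNormedAddCommGroupDiscrete, sing_k, sing_L,
        sing_u, Finset.sum_range_one]
      split_ifs with h
      · rfl
      · simp
    · obtain ⟨n, hn⟩ := hU
      refine ⟨n, fun a b hab => ?_⟩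
      simp only [BoundedContinuousFunction.coe_ofNormedAddCommGroupDiscrete, sing_k, sing_L,
        sing_u, Finset.sum_range_one]
      have : ind U a = ind U b := by
        by_cases ha : a ∈ U
        · rw [ind_of_mem ha, ind_of_mem ((hn a b hab).mp ha)]
        · rw [ind_of_not_mem ha, ind_of_not_mem (fun h => ha ((hn a b hab).mpr h))]
      rw [this, sub_self, abs_zero]
      exact hε.le⟩

/-- The test vector given by `U` on level `k`. -/
noncomputable def V (k : ℕ) (U : Set (Set ℕ)) (hU : Clo U) : X := Vs k U hU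

lemma V_apply (k : ℕ) (U : Set (Set ℕ)) (hU : Clo U) (q : J) :
    (V k U hU).f q = if q.k = k then ∑ i ∈ range q.L, ind U (q.u i) else 0 := rfl

lemma D_V (k' k : ℕ) (U : Set (Set ℕ)) (hU : Clo U) (a : Set ℕ) :
    D k' a (V k U hU) = if k' = k then ind U a else 0 := by
  rw [D_apply, V_apply, sing_k, sing_L, Finset.sum_range_one, sing_u]

lemma norm_V_le (k : ℕ) (U : Set (Set ℕ)) (hU : Clo U) : ‖V k U hU‖ ≤ ((k : ℝ) + 1) ^ 2 := by
  refine (BoundedContinuousFunction.norm_le (by positivity)).mpr (fun q => ?_)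
  change ‖(V k U hU).f q‖ ≤ _
  rw [V_apply]
  split_ifs with h
  · rw [Real.norm_of_nonneg (Finset.sum_nonneg (fun i _ => ind_nonneg _ _)), ← h]
    exact sum_ind_le q U
  · rw [norm_zero]
    positivity

/-- At most one entry of every admissible tuple is in `U`. -/
def Good (U : Set (Set ℕ)) : Prop := ∀ u v : Set ℕ, u ∈ U → v ∈ U → ¬ R u v

lemma Good.sum_le {U : Set (Set ℕ)} (h : Good U) (q : J) :
    ∑ i ∈ range q.L, ind U (q.u i) ≤ 1 := by
  by_cases hex : ∃ i, i < q.L ∧ q.u i ∈ U
  · obtain ⟨i, hi, hiU⟩ := hex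
    rw [Finset.sum_eq_single i]
    · exact ind_le_one _ _
    · intro j hj hji
      apply ind_of_not_mem
      intro hjU
      rcases lt_or_gt_of_ne hji with hlt | hlt
      · exact h _ _ hjU hiU (q.hu hlt hi)
      · exact h _ _ hiU hjU (q.hu hlt (Finset.mem_range.mp hj))
    · intro hi'
      exact absurd (Finset.mem_range.mpr hi) hi'
  · push Not at hex
    rw [Finset.sum_eq_zero (fun i hi => ind_of_not_mem (hex i (Finset.mem_range.mp hi)))]
    exact zero_le_one

/-- Sums of good test vectors on different levels have norm at most one. -/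
lemma norm_sum_le (n : ℕ) (U : ℕ → Set (Set ℕ)) (hU : ∀ k, Clo (U k)) (hg : ∀ k, Good (U k)) :
    ‖∑ k ∈ range n, V k (U k) (hU k)‖ ≤ 1 := by
  refine (BoundedContinuousFunction.norm_le zero_le_one).mpr (fun q => ?_)
  have e : (∑ k ∈ range n, V k (U k) (hU k)).f q =
      ∑ k ∈ range n, (V k (U k) (hU k)).f q := by
    rw [X.sum_f, BoundedContinuousFunction.sum_apply]
  change ‖(∑ k ∈ range n, V k (U k) (hU k)).f q‖ ≤ 1
  rw [e]
  by_cases hq : q.k ∈ range n
  · rw [Finset.sum_eq_single q.k]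
    · rw [V_apply, if_pos rfl, Real.norm_of_nonneg (Finset.sum_nonneg (fun i _ => ind_nonneg _ _))]
      exact (hg q.k).sum_le q
    · intro j _ hj
      rw [V_apply, if_neg (Ne.symm hj)]
    · intro h
      exact absurd hq h
  · rw [Finset.sum_eq_zero, norm_zero]
    · exact zero_le_one
    · intro j hj
      rw [V_apply, if_neg]
      rintro rfl
      exact hq hj

open Classical in
/-- The number of elements below `M`. -/
noncomputable def cnt (x : Set ℕ) (M : ℕ) : ℕ := ((range M).filter (fun i => i ∈ x)).card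

lemma cnt_agree {a b : Set ℕ} {M : ℕ} (h : Agree M a b) : cnt a M = cnt b M := by
  unfold cnt
  congr 1
  ext i
  simp only [Finset.mem_filter, Finset.mem_range]
  constructor
  · rintro ⟨h1, h2⟩
    exact ⟨h1, (h i h1).mp h2⟩
  · rintro ⟨h1, h2⟩
    exact ⟨h1, (h i h1).mpr h2⟩

lemma cnt_le_ncard {x : Set ℕ} (hx : x.Finite) (M : ℕ) : cnt x M ≤ x.ncard := by
  classical
  unfold cnt
  rw [← Set.ncard_coe_finset]
  apply Set.ncard_le_ncard _ hx
  intro i hi
  simp only [Finset.coe_filter, Finset.mem_range] at hi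
  exact hi.2

lemma cnt_mono (x : Set ℕ) {M N : ℕ} (h : M ≤ N) : cnt x M ≤ cnt x N := by
  classical
  unfold cnt
  apply Finset.card_le_card
  apply Finset.filter_subset_filter
  exact Finset.range_subset_range.mpr h

/-- The test sets. -/
def U (m M : ℕ) : Set (Set ℕ) := {x | (∃ i < m, i ∈ x) ∧ m < cnt x M}

lemma U_clo (m M : ℕ) : Clo (U m M) := by
  refine ⟨max m M, fun a b h => ?_⟩
  have h1 : cnt a M = cnt b M := cnt_agree (h.mono (le_max_right _ _))
  have h2 : (∃ i < m, i ∈ a) ↔ ∃ i < m, i ∈ b := by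
    constructor
    · rintro ⟨i, hi, hia⟩
      exact ⟨i, hi, (h i (lt_of_lt_of_le hi (le_max_left _ _))).mp hia⟩
    · rintro ⟨i, hi, hia⟩
      exact ⟨i, hi, (h i (lt_of_lt_of_le hi (le_max_left _ _))).mpr hia⟩
  change ((∃ i < m, i ∈ a) ∧ m < cnt a M) ↔ ((∃ i < m, i ∈ b) ∧ m < cnt b M)
  rw [h1, h2]

lemma U_good (m M : ℕ) : Good (U m M) := by
  rintro u v ⟨_, hu⟩ ⟨⟨i, hi, hiv⟩, _⟩ ⟨hfin, hR⟩
  have h1 := cnt_le_ncard hfin M
  have h2 : sInf v ≤ i := Nat.sInf_le hiv
  omega

/-- The sets which agree with `s` below `M`. -/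
def Nb (s : Set ℕ) (M : ℕ) : Set (Set ℕ) := {x | Agree M x s}

lemma Nb_clo (s : Set ℕ) (M : ℕ) : Clo (Nb s M) := by
  refine ⟨M, fun a b h => ?_⟩
  constructor
  · intro ha i hi
    exact (h i hi).symm.trans (ha i hi)
  · intro hb i hi
    exact (h i hi).trans (hb i hi)

/-- The sets with fewer than `h` elements below `M`. -/
def Sm (h M : ℕ) : Set (Set ℕ) := {x | cnt x M < h}

lemma Sm_clo (h M : ℕ) : Clo (Sm h M) := by
  refine ⟨M, fun a b hab => ?_⟩
  change cnt a M < h ↔ cnt b M < h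
  rw [cnt_agree hab]

lemma univ_clo : Clo Set.univ := ⟨0, fun _ _ _ => by simp⟩

end Pool.Agent.X171.IE
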